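import Pool.Agent.helper86.BK.Spec2

/-!
# Project bk: SH2
-/

set_option autoImplicit false

namespace Pool.Agent.BK

theorem SH2_large (r : ℝ) (hr : 0 < r) (M₀ : ℕ) :
    ∃ m₀ : ℕ, ∀ m : ℕ, m₀ ≤ m → 12 * (8 * (Real.log (4 * m) + 1) + 1) ≤ (m : ℝ) ^ r ∧
      (M₀ : ℝ) ≤ (m : ℝ) ^ (3 / 4 : ℝ) ∧ 4 ≤ m := by
  have h1 := (isLittleO_log_rpow_atTop hr).bound (show (0 : ℝ) < 1 / 192 by norm_num)
  have h2 := (tendsto_rpow_atTop hr).eventually_ge_atTop 600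
  have h5 := (tendsto_rpow_atTop (show (0 : ℝ) < 3 / 4 by norm_num)).eventually_ge_atTop (M₀ : ℝ)
  have h3 := (h1.and (h2.and (h5.and (Filter.eventually_ge_atTop 4))))
  have h4 := tendsto_natCast_atTop_atTop (R := ℝ) |>.eventually h3
  obtain ⟨m₀, hM⟩ := Filter.eventually_atTop.1 h4
  refine ⟨m₀, fun m hm' => ?_⟩
  obtain ⟨a1, a2, a3, a4⟩ := hM m hm'
  have a5 : (1 : ℝ) ≤ m := by linarith
  rw [Real.norm_of_nonneg (Real.log_nonneg a5), Real.norm_of_nonneg (by positivity)] at a1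
  refine ⟨?_, a3, by exact_mod_cast a4⟩
  have h6 : Real.log (4 * m) = Real.log 4 + Real.log m :=
    Real.log_mul (by norm_num) (by linarith)
  have h7 : Real.log 4 ≤ 2 := by
    have : Real.log 4 = 2 * Real.log 2 := by
      rw [show (4 : ℝ) = 2 ^ 2 by norm_num, Real.log_pow]
      norm_num
    rw [this]
    have := Real.log_two_lt_d9
    linarith
  rw [h6]
  linarith

/-- the combinatorial step -/
theorem SH2_comb (hCOVA : COVA_stmt) (hDIL : DIL_stmt) (B D : Finset ℤ) (n : ℕ) (hn : 1 ≤ n)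
    (hD : 1 ≤ D.card) (hM : 1 ≤ 4 * D.card / n)
    (hAP : ∀ d ∈ D, ∃ b : ℤ, ∀ k : ℕ, k < n → b + k * d ∈ B) :
    ∃ B'' : Finset ℤ,
      (B''.card : ℝ) ≤ B.card * (2 * n * (n + 1) *
        (8 * (Real.log ((4 * D.card / n : ℕ) : ℝ) + 1) + 1)) ∧
      ∀ t : ℕ, 1 ≤ t → t ≤ 4 * D.card / n → ∃ b : ℤ, ∀ k : ℕ, k < n → b + k * t ∈ B'' := by
  classical
  set Q : ℕ := 4 * D.card with hQ
  set M : ℕ := Q / n with hMdef
  obtain ⟨B', D', hB', hDD', hB'r, hD'r, hAP'⟩ := hDIL B D n Q hD le_rfl hAP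
  have hQ0 : 0 < Q := by omega
  have hQ0' : (0 : ℤ) < Q := by exact_mod_cast hQ0
  have hMn : M * n ≤ Q := Nat.div_mul_le_self Q n
  -- the covering
  have hcov : ∀ t ∈ Finset.Icc (1 : ℤ) M, (1 / 8 : ℝ) * (Finset.Ico (0 : ℤ) Q).card ≤
      (((Finset.Ico (0 : ℤ) Q).filter fun s => (t - s) % (Q : ℤ) ∈ D').card : ℝ) := by
    intro t _
    have h1 : D'.card ≤ ((Finset.Ico (0 : ℤ) Q).filter fun s => (t - s) % (Q : ℤ) ∈ D').card := by
      refine Finset.card_le_card_of_injOn (fun d => (t - d) % (Q : ℤ)) ?_ ?_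
      · intro d hd
        rw [Finset.mem_coe, Finset.mem_filter, Finset.mem_Ico]
        refine ⟨⟨Int.emod_nonneg _ hQ0'.ne', Int.emod_lt_of_pos _ hQ0'⟩, ?_⟩
        have h2 : (t - (t - d) % (Q : ℤ)) % (Q : ℤ) = d := by
          rw [Int.sub_emod_emod, sub_sub_cancel]
          exact Int.emod_eq_of_lt (hD'r d hd).1 (hD'r d hd).2
        show (t - (t - d) % (Q : ℤ)) % (Q : ℤ) ∈ D'
        rw [h2]
        exact hd
      · intro d hd d' hd' h
        have h2 : (t - (t - d) % (Q : ℤ)) % (Q : ℤ) = d := by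
          rw [Int.sub_emod_emod, sub_sub_cancel]
          exact Int.emod_eq_of_lt (hD'r d hd).1 (hD'r d hd).2
        have h3 : (t - (t - d') % (Q : ℤ)) % (Q : ℤ) = d' := by
          rw [Int.sub_emod_emod, sub_sub_cancel]
          exact Int.emod_eq_of_lt (hD'r d' hd').1 (hD'r d' hd').2
        have h4 : (t - d) % (Q : ℤ) = (t - d') % (Q : ℤ) := h
        rw [← h2, ← h3, h4]
    have h2 : ((Finset.Ico (0 : ℤ) Q).card : ℝ) = Q := by
      rw [Int.card_Ico, sub_zero, Int.toNat_natCast]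
    have h3 : (D.card : ℝ) ≤ 2 * D'.card := by exact_mod_cast hDD'
    have h4 : (Q : ℝ) = 4 * D.card := by rw [hQ]; push_cast; ring
    have h5 : (D'.card : ℝ) ≤
        ((Finset.Ico (0 : ℤ) Q).filter fun s => (t - s) % (Q : ℤ) ∈ D').card := by
      exact_mod_cast h1
    rw [h2, h4]
    linarith
  have hne : (Finset.Ico (0 : ℤ) Q).Nonempty := ⟨0, by rw [Finset.mem_Ico]; omega⟩
  obtain ⟨F, -, hFc, hF⟩ := hCOVA (Finset.Icc (1 : ℤ) M) (Finset.Ico (0 : ℤ) Q)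
    (fun t s => (t - s) % (Q : ℤ) ∈ D') (1 / 8) (by norm_num) hne (fun t ht => hcov t ht)
  have hXc : ((Finset.Icc (1 : ℤ) M).card : ℝ) = M := by
    rw [Int.card_Icc]
    congr 1
    omega
  rw [hXc] at hFc
  set B'' : Finset ℤ := (B' ×ˢ (F ×ˢ (Finset.range n ×ˢ (Finset.range 2)))).image
    (fun z => (z.1 + z.2.2.1 * z.2.1) % (Q : ℤ) + (z.2.2.2 : ℤ) * Q) with hB''
  refine ⟨B'', ?_, ?_⟩
  · have h1 : B''.card ≤ B'.card * (F.card * (n * 2)) := by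
      refine Finset.card_image_le.trans ?_
      rw [Finset.card_product, Finset.card_product, Finset.card_product, Finset.card_range,
        Finset.card_range]
    have h2 : (B''.card : ℝ) ≤ B'.card * (F.card * (n * 2)) := by exact_mod_cast h1
    have h3 : (B'.card : ℝ) ≤ (n + 1) * B.card := by exact_mod_cast hB'
    have h4 : (F.card : ℝ) ≤ 8 * (Real.log (M : ℝ) + 1) + 1 := by
      have : (Real.log (M : ℝ) + 1) / (1 / 8) = 8 * (Real.log (M : ℝ) + 1) := by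
        field_simp
      rw [this] at hFc
      exact hFc
    calc (B''.card : ℝ) ≤ B'.card * (F.card * (n * 2)) := h2
      _ ≤ ((n + 1) * B.card) * ((8 * (Real.log (M : ℝ) + 1) + 1) * (n * 2)) :=
          mul_le_mul h3 (mul_le_mul_of_nonneg_right h4 (by positivity)) (by positivity)
            (by positivity)
      _ = B.card * (2 * n * (n + 1) * (8 * (Real.log (M : ℝ) + 1) + 1)) := by ring
  · intro t ht1 htM
    have htX : (t : ℤ) ∈ Finset.Icc (1 : ℤ) M := by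
      rw [Finset.mem_Icc]
      constructor
      · exact_mod_cast ht1
      · exact_mod_cast htM
    obtain ⟨s, hs, hts⟩ := hF t htX
    obtain ⟨b, hb⟩ := hAP' _ hts
    refine ⟨b % (Q : ℤ), fun k hk => ?_⟩
    have hx := hb k hk
    rw [hB'', Finset.mem_image]
    set y : ℤ := b % (Q : ℤ) + k * t with hy
    have hb0 : 0 ≤ b % (Q : ℤ) := Int.emod_nonneg _ hQ0'.ne'
    have hb1 : b % (Q : ℤ) < Q := Int.emod_lt_of_pos _ hQ0'
    have hkt : (k : ℤ) * t < Q := by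
      have h1 : k * t ≤ k * M := Nat.mul_le_mul_left _ htM
      have h2 : k * M < n * M := Nat.mul_lt_mul_of_pos_right hk (by omega)
      have h3 : n * M ≤ Q := by rw [mul_comm]; exact hMn
      have h4 : k * t < Q := lt_of_le_of_lt h1 (lt_of_lt_of_le h2 h3)
      exact_mod_cast h4
    have hkt0 : 0 ≤ (k : ℤ) * t := by positivity
    have hy0 : 0 ≤ y := by omega
    have hy2 : y < 2 * Q := by omega
    have hmod : ((b + k * ((t - s) % (Q : ℤ))) % (Q : ℤ) + k * s) % (Q : ℤ) = y % (Q : ℤ) := by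
      rw [Int.emod_add_emod]
      have e1 : b + (k : ℤ) * ((t - s) % (Q : ℤ)) + k * s ≡ b + k * (t - s) + k * s [ZMOD Q] :=
        ((Int.ModEq.refl b).add ((Int.ModEq.refl (k : ℤ)).mul (Int.mod_modEq _ _))).add
          (Int.ModEq.refl _)
      have e2 : b + (k : ℤ) * (t - s) + k * s = b + k * t := by ring
      have e3 : b + (k : ℤ) * t ≡ b % (Q : ℤ) + k * t [ZMOD Q] :=
        (Int.mod_modEq _ _).symm.add (Int.ModEq.refl _)
      rw [e2] at e1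
      exact e1.trans e3
    have hdiv : y = y % (Q : ℤ) + (y / (Q : ℤ)) * Q := by
      have := Int.emod_add_mul_ediv y (Q : ℤ)
      linarith
    have hd0 : 0 ≤ y / (Q : ℤ) := Int.ediv_nonneg hy0 hQ0'.le
    have hd2 : y / (Q : ℤ) < 2 := Int.ediv_lt_of_lt_mul hQ0' hy2
    refine ⟨((b + k * ((t - s) % (Q : ℤ))) % (Q : ℤ), s, k, (y / (Q : ℤ)).toNat), ?_, ?_⟩
    · rw [Finset.mem_product, Finset.mem_product, Finset.mem_product, Finset.mem_range,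
        Finset.mem_range]
      refine ⟨hx, hs, hk, ?_⟩
      show (y / (Q : ℤ)).toNat < 2
      omega
    · show ((b + k * ((t - s) % (Q : ℤ))) % (Q : ℤ) + k * s) % (Q : ℤ) +
        (((y / (Q : ℤ)).toNat : ℕ) : ℤ) * Q = y
      rw [hmod, Int.toNat_of_nonneg hd0]
      exact hdiv.symm

theorem SH2 (hCOVA : COVA_stmt) (hDIL : DIL_stmt) : SH2_stmt := by
  intro c hc0 hc1 hFW ε hε
  set ε₁ : ℝ := min (ε / 8) (min (1 / 8) ((1 - c) / 2)) with hε₁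
  have hε₁0 : 0 < ε₁ := by
    rw [hε₁]
    refine lt_min (by positivity) (lt_min (by norm_num) (by linarith))
  have hε₁a : ε₁ ≤ ε / 8 := min_le_left _ _
  have hε₁b : ε₁ ≤ 1 / 8 := (min_le_right _ _).trans (min_le_left _ _)
  have hε₁c : ε₁ ≤ (1 - c) / 2 := (min_le_right _ _).trans (min_le_right _ _)
  obtain ⟨δ₁, hδ₁0, hδ₁, M₀, hM₀⟩ := hFW ε₁ hε₁0
  obtain ⟨m₀, hm₀⟩ := SH2_large (ε / 8) (by positivity) M₀
  refine ⟨2 * δ₁, by positivity, by linarith, m₀, ?_⟩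
  intro D hD B hAP
  obtain ⟨hl1, hl2, hl3⟩ := hm₀ D.card hD
  set m : ℕ := D.card with hm
  set δ : ℝ := 2 * δ₁ with hδ
  have hmr : (4 : ℝ) ≤ m := by exact_mod_cast hl3
  have hm0 : (0 : ℝ) < m := by linarith
  have hm1 : (1 : ℝ) ≤ m := by linarith
  set n : ℕ := ⌈(m : ℝ) ^ δ⌉₊ with hn
  have hδpos : 0 < δ := by positivity
  have hδM : (1 : ℝ) ≤ (m : ℝ) ^ δ := Real.one_le_rpow hm1 hδpos.le
  have hnle : (n : ℝ) ≤ 2 * (m : ℝ) ^ δ := by
    have h2 := (Nat.ceil_lt_add_one (show (0 : ℝ) ≤ (m : ℝ) ^ δ by positivity)).le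
    rw [← hn] at h2
    linarith
  have hnge : (m : ℝ) ^ δ ≤ n := Nat.le_ceil _
  have hn1 : 1 ≤ n := by
    have : (1 : ℝ) ≤ n := hδM.trans hnge
    exact_mod_cast this
  have hn0 : (0 : ℝ) < n := by exact_mod_cast hn1
  -- the size of `M`
  have hMlow : (m : ℝ) ^ (1 - δ) ≤ ((4 * m / n : ℕ) : ℝ) := by
    have h1 : (4 * m : ℝ) / n - 1 ≤ ((4 * m / n : ℕ) : ℝ) := by
      have h2 := Nat.lt_succ_floor ((4 * m : ℝ) / n)
      have h3 : ⌊((4 * m : ℕ) : ℝ) / (n : ℝ)⌋₊ = 4 * m / n := Nat.floor_div_natCast _ _ |>.trans (by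
        rw [Nat.floor_natCast])
      have h4 : ((4 * m : ℕ) : ℝ) = 4 * m := by push_cast; ring
      rw [h4] at h3
      rw [h3] at h2
      push_cast at h2
      linarith
    have h5 : 2 * (m : ℝ) ^ (1 - δ) ≤ (4 * m : ℝ) / n := by
      rw [le_div_iff₀ hn0]
      have h6 : (m : ℝ) ^ (1 - δ) * (m : ℝ) ^ δ = m := by
        rw [← Real.rpow_add hm0]
        simp
      calc 2 * (m : ℝ) ^ (1 - δ) * n ≤ 2 * (m : ℝ) ^ (1 - δ) * (2 * (m : ℝ) ^ δ) :=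
            mul_le_mul_of_nonneg_left hnle (by positivity)
        _ = 4 * ((m : ℝ) ^ (1 - δ) * (m : ℝ) ^ δ) := by ring
        _ = 4 * m := by rw [h6]
    have h6 : (1 : ℝ) ≤ (m : ℝ) ^ (1 - δ) := Real.one_le_rpow hm1 (by linarith)
    linarith
  have hM1 : 1 ≤ 4 * m / n := by
    have h6 : (1 : ℝ) ≤ (m : ℝ) ^ (1 - δ) := Real.one_le_rpow hm1 (by linarith)
    have : (1 : ℝ) ≤ ((4 * m / n : ℕ) : ℝ) := h6.trans hMlow
    exact_mod_cast this
  have hM₀' : M₀ ≤ 4 * m / n := by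
    have h1 : (m : ℝ) ^ (3 / 4 : ℝ) ≤ (m : ℝ) ^ (1 - δ) :=
      Real.rpow_le_rpow_of_exponent_le hm1 (by linarith)
    have : (M₀ : ℝ) ≤ ((4 * m / n : ℕ) : ℝ) := (hl2.trans h1).trans hMlow
    exact_mod_cast this
  have hMup : ((4 * m / n : ℕ) : ℝ) ≤ 4 * m := by
    have : 4 * m / n ≤ 4 * m := Nat.div_le_self _ _
    exact_mod_cast this
  obtain ⟨B'', hB''c, hB''⟩ := SH2_comb hCOVA hDIL B D n hn1 (by omega) hM1
    (fun d hd => by
      obtain ⟨b, hb⟩ := hAP d hd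
      exact ⟨b, fun k hk => hb k (Nat.lt_ceil.1 hk)⟩)
  rw [← hm] at hB''c hB''
  have hHas : ∀ q : ℕ, 1 ≤ q → q ≤ 4 * m / n → HasAP B'' q (((4 * m / n : ℕ) : ℝ) ^ δ₁) := by
    intro q hq1 hqM
    obtain ⟨b, hb⟩ := hB'' q hq1 hqM
    refine ⟨b, fun k hk => hb k ?_⟩
    have h1 : ((4 * m / n : ℕ) : ℝ) ^ δ₁ ≤ (m : ℝ) ^ δ := by
      calc ((4 * m / n : ℕ) : ℝ) ^ δ₁ ≤ ((m : ℝ) ^ (2 : ℝ)) ^ δ₁ := by
            refine Real.rpow_le_rpow (Nat.cast_nonneg _) (hMup.trans ?_) hδ₁0.le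
            rw [Real.rpow_two]
            nlinarith
        _ = (m : ℝ) ^ δ := by rw [← Real.rpow_mul hm0.le]
    exact Nat.lt_ceil.2 (lt_of_lt_of_le hk h1)
  have h1 := hM₀ (4 * m / n) hM₀' B'' hHas
  have hexp : 0 ≤ 1 - c - ε₁ := by linarith
  have h2 : (m : ℝ) ^ (1 - c - ε₁ - δ) ≤ ((4 * m / n : ℕ) : ℝ) ^ (1 - c - ε₁) := by
    calc (m : ℝ) ^ (1 - c - ε₁ - δ) ≤ (m : ℝ) ^ ((1 - δ) * (1 - c - ε₁)) := by
          refine Real.rpow_le_rpow_of_exponent_le hm1 ?_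
          have : δ * (1 - c - ε₁) ≤ δ * 1 := mul_le_mul_of_nonneg_left (by linarith) hδpos.le
          nlinarith
      _ = ((m : ℝ) ^ (1 - δ)) ^ (1 - c - ε₁) := by rw [← Real.rpow_mul hm0.le]
      _ ≤ ((4 * m / n : ℕ) : ℝ) ^ (1 - c - ε₁) :=
          Real.rpow_le_rpow (by positivity) hMlow hexp
  have hlogM : Real.log ((4 * m / n : ℕ) : ℝ) ≤ Real.log (4 * m) := by
    refine Real.log_le_log ?_ hMup
    exact_mod_cast hM1
  have hlog0 : 0 ≤ Real.log ((4 * m / n : ℕ) : ℝ) := Real.log_nonneg (by exact_mod_cast hM1)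
  have h3 : 2 * (n : ℝ) * (n + 1) * (8 * (Real.log ((4 * m / n : ℕ) : ℝ) + 1) + 1) ≤
      (m : ℝ) ^ δ * (m : ℝ) ^ δ * (m : ℝ) ^ (ε / 8) := by
    have h4 : 2 * (n : ℝ) * (n + 1) ≤ 12 * ((m : ℝ) ^ δ * (m : ℝ) ^ δ) := by
      have h5 : (n : ℝ) + 1 ≤ 3 * (m : ℝ) ^ δ := by linarith
      calc 2 * (n : ℝ) * (n + 1) ≤ 2 * (2 * (m : ℝ) ^ δ) * (3 * (m : ℝ) ^ δ) :=
            mul_le_mul (by linarith) h5 (by positivity) (by positivity)
        _ = 12 * ((m : ℝ) ^ δ * (m : ℝ) ^ δ) := by ring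
    calc 2 * (n : ℝ) * (n + 1) * (8 * (Real.log ((4 * m / n : ℕ) : ℝ) + 1) + 1)
        ≤ 12 * ((m : ℝ) ^ δ * (m : ℝ) ^ δ) * (8 * (Real.log (4 * m) + 1) + 1) :=
          mul_le_mul h4 (by linarith) (by linarith) (by positivity)
      _ = (m : ℝ) ^ δ * (m : ℝ) ^ δ * (12 * (8 * (Real.log (4 * m) + 1) + 1)) := by ring
      _ ≤ (m : ℝ) ^ δ * (m : ℝ) ^ δ * (m : ℝ) ^ (ε / 8) :=
          mul_le_mul_of_nonneg_left hl1 (by positivity)
  have h4 : (m : ℝ) ^ (1 - c - ε₁ - δ) ≤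
      B.card * ((m : ℝ) ^ δ * (m : ℝ) ^ δ * (m : ℝ) ^ (ε / 8)) :=
    ((h2.trans h1).trans hB''c).trans (mul_le_mul_of_nonneg_left h3 (Nat.cast_nonneg _))
  have h5 : (m : ℝ) ^ δ * (m : ℝ) ^ δ * (m : ℝ) ^ (ε / 8) = (m : ℝ) ^ (δ + δ + ε / 8) := by
    rw [← Real.rpow_add hm0, ← Real.rpow_add hm0]
  rw [h5] at h4
  have h6 : (m : ℝ) ^ (1 - c - ε) * (m : ℝ) ^ (δ + δ + ε / 8) ≤ (m : ℝ) ^ (1 - c - ε₁ - δ) := by
    rw [← Real.rpow_add hm0]
    refine Real.rpow_le_rpow_of_exponent_le hm1 ?_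
    linarith
  exact le_of_mul_le_mul_right (h6.trans h4) (Real.rpow_pos_of_pos hm0 _)

end Pool.Agent.BK
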